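import Mathlib
import Pool.Agent.X139.KT.Stm

set_option autoImplicit false

open MeasureTheory ProbabilityTheory
open scoped BigOperators

namespace Pool.Agent.X292.KT

open Pool.Agent.X139.KT

theorem int_sq {μ : ℝ} (h0 : 0 < μ) (h1 : μ < 1) :
    Integrable (fun g : ℝ => Real.exp (μ ^ 2 * g ^ 2 / 2)) (gaussianReal 0 1) := by
  rw [gaussianReal_of_var_ne_zero 0 one_ne_zero]
  rw [integrable_withDensity_iff_integrable_smul' (measurable_gaussianPDF 0 1)
    (ae_of_all _ fun x => gaussianPDF_lt_top)]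
  have h2 : Integrable fun x : ℝ => Real.exp (-((1 - μ ^ 2) / 2) * x ^ 2) :=
    integrable_exp_neg_mul_sq (by nlinarith)
  refine (h2.const_mul ((Real.sqrt (2 * Real.pi))⁻¹)).congr (ae_of_all _ fun x => ?_)
  change _ = (gaussianPDF 0 1 x).toReal • Real.exp (μ ^ 2 * x ^ 2 / 2)
  rw [toReal_gaussianPDF, gaussianPDFReal]
  simp only [NNReal.coe_one, mul_one, sub_zero, smul_eq_mul]
  rw [mul_assoc, ← Real.exp_add]
  congr 2
  ring

theorem int_lin (a : ℝ) : Integrable (fun g : ℝ => Real.exp (a * g)) (gaussianReal 0 1) :=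
  integrable_exp_mul_gaussianReal a

theorem integral_lin (a : ℝ) :
    ∫ g : ℝ, Real.exp (a * g) ∂(gaussianReal 0 1) = Real.exp (a ^ 2 / 2) := by
  have h := congrFun (mgf_id_gaussianReal (μ := 0) (v := 1)) a
  unfold mgf at h
  simp only [id_eq, NNReal.coe_one, zero_mul, zero_add, one_mul] at h
  exact h

theorem sg_sq (b : Bool) : sg b ^ 2 = 1 := by
  cases b <;> simp [sg]

theorem sum_exp (n : ℕ) (t : ℝ) (y : Fin n → Bool) :
    ∑ x : Fin n → Bool, Real.exp (t * ∑ i, sg (x i) * sg (y i)) ≤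
      2 ^ n * Real.exp (n * t ^ 2 / 2) := by
  have h1 : ∀ x : Fin n → Bool, Real.exp (t * ∑ i, sg (x i) * sg (y i)) =
      ∏ i, Real.exp (t * (sg (x i) * sg (y i))) := by
    intro x
    rw [Finset.mul_sum, Real.exp_sum]
  have h2 : ∑ x : Fin n → Bool, ∏ i, Real.exp (t * (sg (x i) * sg (y i))) =
      ∏ i, ∑ b : Bool, Real.exp (t * (sg b * sg (y i))) := by
    rw [Finset.prod_univ_sum, Fintype.piFinset_univ]
  have h3 : ∀ i, ∑ b : Bool, Real.exp (t * (sg b * sg (y i))) = 2 * Real.cosh t := by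
    intro i
    rw [Fintype.sum_bool, Real.cosh_eq]
    cases y i
    · simp only [sg]
      norm_num
      ring
    · simp only [sg]
      norm_num
      ring
  simp only [h1]
  rw [h2]
  simp only [h3]
  rw [Finset.prod_const, Finset.card_univ, Fintype.card_fin, mul_pow]
  refine mul_le_mul_of_nonneg_left ?_ (by positivity)
  have h4 : Real.exp (n * t ^ 2 / 2) = Real.exp (t ^ 2 / 2) ^ n := by
    rw [← Real.exp_nat_mul]
    congr 1
    ring
  rw [h4]
  exact pow_le_pow_left₀ (Real.cosh_pos t).le (Real.cosh_le_exp_half_sq t) n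

theorem t_SM (hP : S_PAIR) : S_SM := by
  intro μ h0 h1
  refine ⟨(∫ g : ℝ, Real.exp (μ ^ 2 * g ^ 2 / 2) ∂(gaussianReal 0 1)) + 1, ?_, ?_⟩
  · have := integral_nonneg (μ := gaussianReal 0 1)
      (f := fun g : ℝ => Real.exp (μ ^ 2 * g ^ 2 / 2)) fun g => (Real.exp_pos _).le
    linarith
  · intro n hn y
    have hn' : (0 : ℝ) < n := by exact_mod_cast hn
    have hs : Real.sqrt n ^ 2 = n := Real.sq_sqrt hn'.le
    have hs0 : Real.sqrt n ≠ 0 := by positivity
    have hb : ∀ x : Fin n → Bool, Real.exp (μ ^ 2 / n *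
        ∑ S ∈ (Finset.univ : Finset (Finset (Fin n))).filter (fun S => S.card = 2),
          chi x S * chi y S) ≤
        ∫ g : ℝ, Real.exp ((μ * (∑ i, sg (x i) * sg (y i)) / Real.sqrt n) * g)
          ∂(gaussianReal 0 1) := by
      intro x
      rw [integral_lin]
      refine Real.exp_le_exp.2 ?_
      have h2 := hP n fun i => sg (x i) * sg (y i)
      have h3 : ∑ i, (sg (x i) * sg (y i)) ^ 2 = n := by
        simp only [mul_pow, sg_sq, mul_one]
        rw [Finset.sum_const, Finset.card_univ, Fintype.card_fin, nsmul_eq_mul, mul_one]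
      have h4 : ∀ S : Finset (Fin n), chi x S * chi y S = ∏ i ∈ S, sg (x i) * sg (y i) := by
        intro S
        unfold chi
        rw [Finset.prod_mul_distrib]
      simp only [h4]
      rw [h3] at h2
      generalize ∑ S ∈ (Finset.univ : Finset (Finset (Fin n))).filter (fun S => S.card = 2),
        ∏ i ∈ S, sg (x i) * sg (y i) = P at h2 ⊢
      generalize ∑ i, sg (x i) * sg (y i) = Q at h2 ⊢
      have h5 : (μ * Q / Real.sqrt n) ^ 2 / 2 = μ ^ 2 / n * (Q ^ 2 / 2) := by
        rw [div_pow, mul_pow, hs]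
        ring
      rw [h5]
      refine mul_le_mul_of_nonneg_left ?_ (by positivity)
      nlinarith
    calc _ ≤ ∑ x : Fin n → Bool,
          ∫ g : ℝ, Real.exp ((μ * (∑ i, sg (x i) * sg (y i)) / Real.sqrt n) * g)
            ∂(gaussianReal 0 1) := Finset.sum_le_sum fun x _ => hb x
      _ = ∫ g : ℝ, ∑ x : Fin n → Bool,
          Real.exp ((μ * (∑ i, sg (x i) * sg (y i)) / Real.sqrt n) * g)
            ∂(gaussianReal 0 1) := (integral_finset_sum _ fun x _ => int_lin _).symm
      _ ≤ ∫ g : ℝ, 2 ^ n * Real.exp (μ ^ 2 * g ^ 2 / 2) ∂(gaussianReal 0 1) := by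
          refine integral_mono (integrable_finset_sum _ fun x _ => int_lin _)
            ((int_sq h0 h1).const_mul _) fun g => ?_
          have h2 := sum_exp n (μ * g / Real.sqrt n) y
          have h3 : (n : ℝ) * (μ * g / Real.sqrt n) ^ 2 / 2 = μ ^ 2 * g ^ 2 / 2 := by
            rw [div_pow, mul_pow, hs]
            field_simp
          rw [h3] at h2
          refine le_trans (le_of_eq ?_) h2
          refine Finset.sum_congr rfl fun x _ => ?_
          congr 1
          ring
      _ = 2 ^ n * ∫ g : ℝ, Real.exp (μ ^ 2 * g ^ 2 / 2) ∂(gaussianReal 0 1) := by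
          rw [integral_const_mul]
      _ ≤ _ := by
          have h2 : (0 : ℝ) < 2 ^ n := by positivity
          nlinarith

end Pool.Agent.X292.KT
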